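import Pool.Agent.Mg.F6d294b.Gf2e2f7
import Pool.Agent.Mg.F6d294b.G1a9418

open Classical

namespace Pool.Agent.Results.MP_6d294b_pr.ThreeHalves

/-- `r`-neighbour bootstrap percolation on the grid of side `n` in dimension `d ≥ r ≥ 2`:
the critical probability `q` satisfies
`c / L ^ (3 / 2) ≤ lam / L - q ^ (1 / (d - r + 1)) ≤ C / L ^ (3 / 2)`, where `L` is the
`(r - 1)`-fold iterated logarithm of `n` and `lam` is the integral of
`- log (beta (1 - exp (- z ^ (d - r + 1))))`, with `k = r - 1` and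
`beta u = 1 / 2 - (1 - u) ^ k / 2 + sqrt (1 + (4 u - 2) (1 - u) ^ k + (1 - u) ^ (2 k)) / 2`. -/
theorem result : ∀ d r : ℕ, 2 ≤ r → r ≤ d → ∃ c C : ℝ, 0 < c ∧ 0 < C ∧ ∃ n₀ : ℕ, ∀ n : ℕ,
    n₀ ≤ n → ∀ (beta : ℝ → ℝ) (lam L q : ℝ),
      (beta = fun u : ℝ => 1 / 2 - (1 - u) ^ (r - 1) / 2 +
        Real.sqrt (1 + (4 * u - 2) * (1 - u) ^ (r - 1) + (1 - u) ^ (2 * (r - 1))) / 2) →
      lam = (∫ z in Set.Ioi (0 : ℝ), - Real.log (beta (1 - Real.exp (- z ^ (d - r + 1))))) →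
      L = Real.log^[r - 1] (n : ℝ) →
      q = sInf {p : ℝ | 0 ≤ p ∧ p ≤ 1 ∧
        (1 / 2 : ℝ) ≤ ∑ A : Finset (Fin d → Fin n),
          (if (∀ S : Set (Fin d → Fin n), (↑A : Set (Fin d → Fin n)) ⊆ S →
                (∀ v : Fin d → Fin n,
                  r ≤ Set.ncard {u : Fin d → Fin n | u ∈ S ∧
                    (∑ i : Fin d, Int.natAbs (((u i : ℕ) : ℤ) - ((v i : ℕ) : ℤ))) = 1} →
                  v ∈ S) →
                S = Set.univ)
            then p ^ A.card * (1 - p) ^ (Fintype.card (Fin d → Fin n) - A.card)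
            else 0)} →
      c / L ^ (3 / 2 : ℝ) ≤ lam / L - q ^ (1 / ((d : ℝ) - r + 1)) ∧
      lam / L - q ^ (1 / ((d : ℝ) - r + 1)) ≤ C / L ^ (3 / 2 : ℝ) := by
  intro d r hr hd
  obtain ⟨C, n₀, h⟩ := Pool.Agent.MP_6d294b_pr.final_GAll d r hr hd
  obtain ⟨c, hc, n₁, h'⟩ := Pool.Agent.MP_6d294b_pr.upper_all d r hr hd
  obtain ⟨n₂, h''⟩ := Pool.Agent.MP_6d294b_pr.rTower.1 (r - 1) 0
  refine ⟨c, |C| + 1, hc, by positivity, max n₀ (max n₁ n₂),
    fun n hn beta lam L q hb hl hL hq => ?_⟩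
  have h1 := h n (le_trans (le_max_left _ _) hn)
  have h2 := h' n (le_trans ((le_max_left _ _).trans (le_max_right _ _)) hn)
  have h0 := h'' n (le_trans ((le_max_right _ _).trans (le_max_right _ _)) hn)
  rw [pow_zero, mul_one] at h1
  unfold Pool.Agent.MP_6d294b_pr.lamk Pool.Agent.MP_6d294b_pr.gk Pool.Agent.MP_6d294b_pr.betk
    Pool.Agent.MP_6d294b_pr.Pr Pool.Agent.MP_6d294b_pr.PercR at h1 h2
  rw [Finset.powerset_univ, Finset.card_univ] at h1 h2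
  have h3 : C / Real.log^[r - 1] (n : ℝ) ^ (3 / 2 : ℝ) ≤
      (|C| + 1) / Real.log^[r - 1] (n : ℝ) ^ (3 / 2 : ℝ) :=
    div_le_div_of_nonneg_right (by linarith [le_abs_self C]) (Real.rpow_nonneg h0 _)
  subst hb hl hL hq
  have h4 := h1.trans h3
  constructor
  · convert h2
  · convert h4
    rfl

end Pool.Agent.Results.MP_6d294b_pr.ThreeHalves
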